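import Pool.Agent.V8H51.TW.Defs
import Pool.Agent.H554R2.Lin.Defs

/-!
# The blocks of a circuit whose boundary words are fixed
-/

set_option autoImplicit false

open Finset

namespace Pool.Agent.V8H51.TW

open Pool.Agent.H554R2.Sem Pool.Agent.H554R2.Lin

theorem DTree.det {V α : Type} {x y : V → Bool} (T : DTree V α)
    (h : ∀ v, v ∈ T.reads x → v ∈ T.reads y → x v = y v) :
    T.eval x = T.eval y ∧ T.reads x = T.reads y := by
  induction T with
  | leaf u => exact ⟨rfl, rfl⟩
  | ask v f ih =>
    have h1 : x v = y v := h v (by simp [DTree.reads]) (by simp [DTree.reads])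
    have h2 := ih (x v) (fun v' h3 h4 => h v' (by
        simp only [DTree.reads, List.mem_cons]
        exact Or.inr h3) (by
        simp only [DTree.reads, List.mem_cons]
        rw [← h1]
        exact Or.inr h4))
    simp only [DTree.eval, DTree.reads]
    rw [← h1]
    exact ⟨h2.1, by rw [h2.2]⟩

theorem DTree.splice {V α : Type} {x z : V → Bool} (T : DTree V α)
    (h : ∀ v ∈ T.reads x, z v = x v) : T.eval z = T.eval x ∧ T.reads z = T.reads x := by
  induction T with
  | leaf u => exact ⟨rfl, rfl⟩
  | ask v f ih =>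
    have h1 : z v = x v := h v (by simp [DTree.reads])
    have h2 := ih (x v) (fun v' h3 => h v' (by
        simp only [DTree.reads, List.mem_cons]
        exact Or.inr h3))
    simp only [DTree.eval, DTree.reads]
    rw [h1]
    exact ⟨h2.1, by rw [h2.2]⟩

variable {n : ℕ} {α : Type}

open Classical in
/-- the bits which are read by the gates of the group `c` -/
noncomputable def rd {r : ℕ} (C : Circ (Fin n) α) (gr : Fin C.size → Fin r) (c : Fin r)
    (x : Pt n) : Finset (Fin n) :=
  univ.filter (fun i => ∃ g, gr g = c ∧ i ∈ C.read x g)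

theorem mem_rd {r : ℕ} {C : Circ (Fin n) α} {gr : Fin C.size → Fin r} {c : Fin r}
    {x : Pt n} {i : Fin n} : i ∈ rd C gr c x ↔ ∃ g, gr g = c ∧ i ∈ C.read x g := by
  unfold rd
  rw [mem_filter]
  exact ⟨fun h => h.2, fun h => ⟨mem_univ _, h⟩⟩

open Classical in
/-- accepted inputs with given boundary words and few reads in each group -/
noncomputable def kset {r : ℕ} (C : Circ (Fin n) α) (gr : Fin C.size → Fin r)
    (E : Finset (Fin C.size)) (β : E → α) (s : ℕ) : Finset (Pt n) :=
  univ.filter (fun x => C.Accepts x ∧ (∀ v : E, C.val x v.1 = β v) ∧ ∀ c, (rd C gr c x).card ≤ s)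

theorem mem_kset {r : ℕ} {C : Circ (Fin n) α} {gr : Fin C.size → Fin r}
    {E : Finset (Fin C.size)} {β : E → α} {s : ℕ} {x : Pt n} : x ∈ kset C gr E β s ↔
      C.Accepts x ∧ (∀ v : E, C.val x v.1 = β v) ∧ ∀ c, (rd C gr c x).card ≤ s := by
  unfold kset
  simp only [mem_filter, mem_univ, true_and]

/-- The blocks. -/
noncomputable def toBlk {r : ℕ} (C : Circ (Fin n) α) (gr : Fin C.size → Fin r)
    (E : Finset (Fin C.size)) (β : E → α) (s : ℕ)
    (hE : ∀ g a, C.src g a ∈ E ∨ gr (C.src g a) = gr g) : Blk n r s where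
  K := kset C gr E β s
  Rd := fun c x => rd C gr c x
  size := fun x hx j => (mem_kset.1 hx).2.2 j
  det := by
    intro x hx y hy j hxy
    have hx2 := (mem_kset.1 hx).2.1
    have hy2 := (mem_kset.1 hy).2.1
    have key : ∀ g, gr g = j → C.val x g = C.val y g ∧ C.read x g = C.read y g := by
      intro g
      induction g using WellFoundedLT.induction with
      | ind g ih =>
        intro hg
        have h1 : (fun a => C.val x (C.src g a)) = fun a => C.val y (C.src g a) := by
          funext a
          rcases hE g a with h | h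
          · rw [hx2 ⟨_, h⟩, hy2 ⟨_, h⟩]
          · exact (ih _ (C.acyclic g a) (h.trans hg)).1
        have h2 := DTree.det (x := x) (y := y) (C.op g (fun a => C.val y (C.src g a)))
          (fun v h3 h4 => hxy v (mem_rd.2 ⟨g, hg, by unfold Circ.read; rw [h1]; exact h3⟩)
            (mem_rd.2 ⟨g, hg, h4⟩))
        unfold Circ.read
        rw [C.val_eq x g, C.val_eq y g, h1]
        exact h2
    ext i
    rw [mem_rd, mem_rd]
    constructor
    · rintro ⟨g, h1, h2⟩
      exact ⟨g, h1, by rw [← (key g h1).2]; exact h2⟩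
    · rintro ⟨g, h1, h2⟩
      exact ⟨g, h1, by rw [(key g h1).2]; exact h2⟩
  splice := by
    intro X hX z hz
    have key : ∀ g, C.val z g = C.val (X (gr g)) g ∧ C.read z g = C.read (X (gr g)) g := by
      intro g
      induction g using WellFoundedLT.induction with
      | ind g ih =>
        have h1 : (fun a => C.val z (C.src g a)) = fun a => C.val (X (gr g)) (C.src g a) := by
          funext a
          rw [(ih _ (C.acyclic g a)).1]
          rcases hE g a with h | h
          · rw [(mem_kset.1 (hX (gr (C.src g a)))).2.1 ⟨_, h⟩,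
              (mem_kset.1 (hX (gr g))).2.1 ⟨_, h⟩]
          · rw [h]
        have h2 := DTree.splice (x := X (gr g)) (z := z)
          (C.op g (fun a => C.val (X (gr g)) (C.src g a)))
          (fun v h3 => hz (gr g) v (mem_rd.2 ⟨g, rfl, h3⟩))
        unfold Circ.read
        rw [C.val_eq z g, C.val_eq (X (gr g)) g, h1]
        exact h2
    have hrd : ∀ j, rd C gr j z = rd C gr j (X j) := by
      intro j
      ext i
      rw [mem_rd, mem_rd]
      constructor
      · rintro ⟨g, h1, h2⟩
        refine ⟨g, h1, ?_⟩
        rw [(key g).2, h1] at h2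
        exact h2
      · rintro ⟨g, h1, h2⟩
        refine ⟨g, h1, ?_⟩
        rw [(key g).2, h1]
        exact h2
    refine ⟨mem_kset.2 ⟨?_, ?_, ?_⟩, hrd⟩
    · show C.acc (C.val z C.out)
      rw [(key C.out).1]
      exact (mem_kset.1 (hX _)).1
    · intro v
      rw [(key v.1).1]
      exact (mem_kset.1 (hX _)).2.1 v
    · intro c
      rw [hrd c]
      exact (mem_kset.1 (hX c)).2.2 c

end Pool.Agent.V8H51.TW
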