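import Mathlib

/-!
# Grouping an interval of weights by thresholds
-/

set_option autoImplicit false

open Finset

namespace Pool.Agent.V8H51.TW

/-- The number of the thresholds that are at most `l`. -/
def grp {ρ N : ℕ} (τ : Fin ρ → Fin (N + 1)) (l : ℕ) : Fin (ρ + 1) :=
  ⟨(univ.filter (fun j => (τ j : ℕ) ≤ l)).card, by
    have := card_filter_le (univ : Finset (Fin ρ)) (fun j => (τ j : ℕ) ≤ l)
    rw [card_univ, Fintype.card_fin] at this
    omega⟩

/-- the sum of an interval of weights with bounded prefix sums -/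
theorem window (u : ℕ → ℕ) (s a : ℕ) (hs : ∀ l, u l ≤ s) : ∀ N : ℕ,
    ∑ l ∈ (range N).filter (fun l => a ≤ ∑ i ∈ range l, u i ∧ ∑ i ∈ range l, u i < a + s), u l ≤
      2 * s ∧
    (∑ i ∈ range N, u i < a + s →
      a + ∑ l ∈ (range N).filter (fun l => a ≤ ∑ i ∈ range l, u i ∧
        ∑ i ∈ range l, u i < a + s), u l ≤ max a (∑ i ∈ range N, u i)) := by
  intro N
  induction N with
  | zero => simp
  | succ N ih =>
    obtain ⟨h1, h2⟩ := ih
    rw [range_add_one, filter_insert]
    by_cases h : a ≤ ∑ i ∈ range N, u i ∧ ∑ i ∈ range N, u i < a + s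
    · rw [if_pos h, sum_insert (by simp), ← range_add_one, sum_range_succ]
      have h3 := h2 h.2
      have h4 := hs N
      rw [max_eq_right h.1] at h3
      constructor
      · omega
      · intro h5
        rw [max_eq_right (by omega)]
        omega
    · rw [if_neg h, ← range_add_one, sum_range_succ]
      refine ⟨h1, fun h5 => ?_⟩
      have h6 := h2 (by omega)
      refine h6.trans (max_le_max le_rfl (by omega))

theorem group (ρ N s : ℕ) (hs0 : 0 < s) (u : ℕ → ℕ) (hs : ∀ l, u l ≤ s)
    (hW : ∑ i ∈ range N, u i < (ρ + 1) * s) :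
    ∃ τ : Fin ρ → Fin (N + 1), ∀ c : Fin (ρ + 1),
      ∑ l ∈ (range N).filter (fun l => grp τ l = c), u l ≤ 2 * s := by
  classical
  have hmono : ∀ a b : ℕ, a ≤ b → ∑ i ∈ range a, u i ≤ ∑ i ∈ range b, u i := fun a b h =>
    sum_le_sum_of_subset (range_subset_range.2 h)
  -- thresholds
  have hτ : ∀ j : Fin ρ, ∃ t : Fin (N + 1), ∀ l < N, (t : ℕ) ≤ l ↔
      (j.val + 1) * s ≤ ∑ i ∈ range l, u i := by
    intro j
    by_cases h : ∃ l, l < N ∧ (j.val + 1) * s ≤ ∑ i ∈ range l, u i
    · refine ⟨⟨Nat.find h, by have := (Nat.find_spec h).1; omega⟩, fun l hl => ?_⟩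
      constructor
      · intro h1
        exact (Nat.find_spec h).2.trans (hmono _ _ h1)
      · intro h1
        exact Nat.find_min' h ⟨hl, h1⟩
    · push Not at h
      refine ⟨⟨N, Nat.lt_succ_self N⟩, fun l hl => ?_⟩
      constructor
      · intro h1
        simp only at h1
        omega
      · intro h1
        exact absurd h1 (not_le.2 (h l hl))
  choose τ hτ using hτ
  refine ⟨τ, fun c => ?_⟩
  have hg : ∀ l < N, ((grp τ l : Fin (ρ + 1)) : ℕ) = (∑ i ∈ range l, u i) / s := by
    intro l hl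
    have h1 : (∑ i ∈ range l, u i) / s < ρ + 1 := by
      rw [Nat.div_lt_iff_lt_mul hs0]
      exact lt_of_le_of_lt (hmono l N hl.le) hW
    have h2 : (univ.filter (fun j : Fin ρ => (τ j : ℕ) ≤ l)) =
        univ.filter (fun j : Fin ρ => j.val < (∑ i ∈ range l, u i) / s) := by
      ext j
      simp only [mem_filter, mem_univ, true_and]
      rw [hτ j l hl, ← Nat.le_div_iff_mul_le hs0]
      omega
    show (univ.filter (fun j : Fin ρ => (τ j : ℕ) ≤ l)).card = _
    rw [h2]
    have h3 : ∀ q : ℕ, q ≤ ρ → (univ.filter (fun j : Fin ρ => j.val < q)).card = q := by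
      intro q hq
      rw [Fin.card_filter_val_lt]
      omega
    exact h3 _ (by omega)
  refine le_trans (le_of_eq ?_) (window u s (c.val * s) hs N).1
  apply sum_congr _ (fun _ _ => rfl)
  ext l
  simp only [mem_filter, mem_range]
  constructor
  · rintro ⟨h1, h2⟩
    have h3 := hg l h1
    rw [h2] at h3
    refine ⟨h1, ?_, ?_⟩
    · rw [h3]
      exact Nat.div_mul_le_self _ _
    · rw [h3]
      have := Nat.lt_mul_div_succ (∑ i ∈ range l, u i) hs0
      calc ∑ i ∈ range l, u i < s * ((∑ i ∈ range l, u i) / s + 1) := this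
        _ = (∑ i ∈ range l, u i) / s * s + s := by ring
  · rintro ⟨h1, h2, h3⟩
    refine ⟨h1, ?_⟩
    apply Fin.ext
    rw [hg l h1]
    apply Nat.div_eq_of_lt_le
    · exact h2
    · calc ∑ i ∈ range l, u i < c.val * s + s := h3
        _ = (c.val + 1) * s := by ring

end Pool.Agent.V8H51.TW
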