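import Pool.Agent.V8H51.TW.Cut
import Pool.Agent.V8H51.TW.Group
import Pool.Agent.V8H51.TW.Block

/-!
# The inputs accepted by a circuit of small treewidth are covered by few blocks
-/

set_option autoImplicit false

open Finset

namespace Pool.Agent.V8H51.TW

open Pool.Agent.H554R2.Sem Pool.Agent.H554R2.Lin

theorem pigeon {I X : Type} [Fintype I] [Nonempty I] (G : Finset X) (K : I → Finset X)
    (h : ∀ x ∈ G, ∃ i, x ∈ K i) : ∃ i, G.card ≤ Fintype.card I * (K i).card := by
  classical
  by_contra hc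
  push Not at hc
  have h1 : G.card ≤ ∑ i, (K i).card := by
    calc G.card ≤ (univ.biUnion K).card := by
          apply card_le_card
          intro x hx
          obtain ⟨i, hi⟩ := h x hx
          exact mem_biUnion.2 ⟨i, mem_univ _, hi⟩
      _ ≤ ∑ i, (K i).card := card_biUnion_le
  have h2 : ∑ i : I, Fintype.card I * (K i).card < ∑ _i : I, G.card :=
    sum_lt_sum_of_nonempty univ_nonempty (fun i _ => hc i)
  rw [← mul_sum, sum_const, card_univ, smul_eq_mul] at h2
  have h3 := Nat.mul_le_mul_left (Fintype.card I) h1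
  omega

section

variable {S : ℕ} (par : ℕ → ℕ) (bag : ℕ → Finset (Fin S)) (node : Fin S → ℕ)

/-- the nodes given by a list -/
def zset {ρ : ℕ} (z : Fin ρ → Fin (S + 1)) : Finset ℕ := univ.image (fun j => (z j : ℕ))

/-- the gates in the bags of the nodes given by a list -/
def ebd {ρ : ℕ} (z : Fin ρ → Fin (S + 1)) : Finset (Fin S) := univ.biUnion (fun j => bag (z j))

/-- the piece of a gate -/
def piece (Z : Finset ℕ) (g : Fin S) : ℕ := if node g ∈ Z then S + g else comp par Z (node g)

variable {par bag node}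

theorem mem_zset {ρ : ℕ} {z : Fin ρ → Fin (S + 1)} {i : ℕ} : i ∈ zset z ↔ ∃ j, (z j : ℕ) = i := by
  unfold zset
  simp

theorem ebd_of_zset {ρ : ℕ} {z : Fin ρ → Fin (S + 1)} {i : ℕ} (h : i ∈ zset z) {v : Fin S}
    (hv : v ∈ bag i) : v ∈ ebd bag z := by
  obtain ⟨j, hj⟩ := mem_zset.1 h
  rw [ebd, mem_biUnion]
  exact ⟨j, mem_univ _, by rw [hj]; exact hv⟩

theorem comp_const {ρ : ℕ} {z : Fin ρ → Fin (S + 1)} {v : Fin S} (hv : v ∉ ebd bag z)
    (hpar : ∀ i, 0 < i → par i < i) {i0 : ℕ}
    (hu : ∀ i, v ∈ bag i → (i = 0 ∨ v ∉ bag (par i)) → i = i0) :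
    ∀ i, v ∈ bag i → comp par (zset z) i = comp par (zset z) i0 := by
  intro i
  induction i using Nat.strong_induction_on with
  | _ i ih =>
    intro hi
    by_cases h : i = 0 ∨ v ∉ bag (par i)
    · rw [hu i hi h]
    · push Not at h
      have h0 : 0 < i := Nat.pos_of_ne_zero h.1
      rw [comp_step h0 (hpar i h0) (fun h1 => hv (ebd_of_zset h1 h.2))]
      exact ih _ (hpar i h0) h.2

theorem piece_eq {ρ : ℕ} {z : Fin ρ → Fin (S + 1)} {g v : Fin S} (hv : v ∉ ebd bag z)
    (hpar : ∀ i, 0 < i → par i < i)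
    (hroot : ∀ v, ∃! i, v ∈ bag i ∧ (i = 0 ∨ v ∉ bag (par i)))
    (h1 : v ∈ bag (node g)) (h2 : v ∈ bag (node v)) :
    piece par node (zset z) v = piece par node (zset z) g := by
  obtain ⟨i0, _, hi0⟩ := hroot v
  have hu : ∀ i, v ∈ bag i → (i = 0 ∨ v ∉ bag (par i)) → i = i0 := fun i h3 h4 => hi0 i ⟨h3, h4⟩
  unfold piece
  rw [if_neg (fun h => hv (ebd_of_zset h h2)), if_neg (fun h => hv (ebd_of_zset h h1)),
    comp_const hv hpar hu _ h1, comp_const hv hpar hu _ h2]

theorem exists_list {ρ : ℕ} (Z : Finset ℕ) (hZ : Z ⊆ range S) (hc : Z.card ≤ ρ) :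
    ∃ z : Fin ρ → Fin (S + 1), ∀ i < S, (i ∈ Z ↔ i ∈ zset z) := by
  classical
  refine ⟨fun j => if h : j.val < Z.card then
    ⟨(Z.equivFin.symm ⟨j, h⟩).val, by
      have := mem_range.1 (hZ (Z.equivFin.symm ⟨j, h⟩).2)
      omega⟩ else ⟨S, Nat.lt_succ_self S⟩, fun i hi => ?_⟩
  rw [mem_zset]
  constructor
  · intro h
    have h2 := (Z.equivFin ⟨i, h⟩).2
    refine ⟨⟨(Z.equivFin ⟨i, h⟩).val, by omega⟩, ?_⟩
    rw [dif_pos h2]
    simp
  · rintro ⟨j, hj⟩
    split_ifs at hj with h
    · rw [← hj]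
      exact (Z.equivFin.symm ⟨j, h⟩).2
    · simp only at hj
      omega

end

variable {n : ℕ} {α : Type}

/-- the number of reads -/
def nreads (C : Circ (Fin n) α) (x : Pt n) : ℕ := ∑ g, (C.read x g).length

theorem cover_one (C : Circ (Fin n) α) {par : ℕ → ℕ}
    {node : Fin C.size → ℕ} (hpar : ∀ i, 0 < i → par i < i) (hnode : ∀ g, node g < C.size)
    (ρ s W : ℕ) (hs : 0 < s) (hW : W < (ρ + 1) * s) (x : Pt n) (hx : nreads C x ≤ W)
    (hx2 : ∀ g, (C.read x g).length ≤ s) :
    ∃ (z : Fin ρ → Fin (C.size + 1)) (τ : Fin ρ → Fin (2 * C.size + 1)),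
      ∀ c, (rd C (fun g => grp τ (piece par node (zset z) g)) c x).card ≤ 2 * s := by
  classical
  obtain ⟨L, hL⟩ : ∃ L : Fin C.size → ℕ, L = fun g => (C.read x g).length := ⟨_, rfl⟩
  have hLt : nreads C x = ∑ g, L g := by
    rw [hL]
    rfl
  have hLs : ∀ g, L g ≤ s := by
    rw [hL]
    exact hx2
  obtain ⟨w, hw⟩ : ∃ w : ℕ → ℕ, w = fun i => ∑ g ∈ univ.filter (fun g => node g = i), L g :=
    ⟨_, rfl⟩
  have htot : ∑ i ∈ range C.size, w i = nreads C x := by
    rw [hw, hLt]
    exact sum_fiberwise_of_maps_to (fun g _ => mem_range.2 (hnode g)) L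
  obtain ⟨Z, hZ1, hZ2, hZ3⟩ := cut hpar s C.size w
  have hZc : Z.card ≤ ρ := by
    by_contra h
    push Not at h
    have h1 : (ρ + 1) * s ≤ Z.card * (s + 1) := Nat.mul_le_mul h (Nat.le_succ s)
    omega
  obtain ⟨z, hz⟩ := exists_list (S := C.size) Z hZ1 hZc
  have hcomp : ∀ i < C.size, comp par Z i = comp par (zset z) i := fun i hi =>
    comp_congr i (fun j hj => hz j (hj.trans hi))
  obtain ⟨u, hu⟩ : ∃ u : ℕ → ℕ, u = fun l =>
    ∑ g ∈ univ.filter (fun g => piece par node (zset z) g = l), L g := ⟨_, rfl⟩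
  have hpl : ∀ g, piece par node (zset z) g < 2 * C.size := by
    intro g
    unfold piece
    split_ifs
    · have := g.2
      omega
    · have h1 := comp_le par (zset z) (node g)
      have h2 := hnode g
      omega
  have hul : ∀ l, u l ≤ s := by
    intro l
    rw [hu]
    simp only
    by_cases hl : l < C.size
    · refine le_trans ?_ (hZ3 l)
      rw [hw]
      have h1 : (univ.filter (fun g => piece par node (zset z) g = l)) ⊆
          ((range C.size).filter (fun i => i ∉ Z ∧ comp par Z i = l)).biUnion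
            (fun i => univ.filter (fun g => node g = i)) := by
        intro g hg
        obtain ⟨_, h3⟩ := mem_filter.1 hg
        rw [mem_biUnion]
        unfold piece at h3
        split_ifs at h3 with h4
        · omega
        · refine ⟨node g, mem_filter.2 ⟨mem_range.2 (hnode g), ?_, ?_⟩,
            mem_filter.2 ⟨mem_univ _, rfl⟩⟩
          · rw [hz _ (hnode g)]
            exact h4
          · rw [hcomp _ (hnode g)]
            exact h3
      refine (sum_le_sum_of_subset h1).trans (le_of_eq ?_)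
      refine sum_biUnion ?_
      intro i _ j _ hij
      refine disjoint_left.2 (fun g h2 h3 => hij ?_)
      rw [← (mem_filter.1 h2).2, ← (mem_filter.1 h3).2]
    · have h1 : (univ.filter (fun g => piece par node (zset z) g = l)).card ≤ 1 := by
        rw [card_le_one]
        intro g hg g' hg'
        have key : ∀ g, g ∈ univ.filter (fun g => piece par node (zset z) g = l) →
            C.size + g.val = l := by
          intro g hg
          obtain ⟨_, h3⟩ := mem_filter.1 hg
          unfold piece at h3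
          split_ifs at h3 with h4
          · exact h3
          · have h5 := comp_le par (zset z) (node g)
            have h6 := hnode g
            omega
        have h2 := key g hg
        have h3 := key g' hg'
        exact Fin.ext (by omega)
      calc ∑ g ∈ univ.filter (fun g => piece par node (zset z) g = l), L g ≤
          ∑ _g ∈ univ.filter (fun g => piece par node (zset z) g = l), s :=
            sum_le_sum (fun g _ => hLs g)
        _ = (univ.filter (fun g => piece par node (zset z) g = l)).card * s := by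
            rw [sum_const, smul_eq_mul]
        _ ≤ 1 * s := Nat.mul_le_mul_right _ h1
        _ = s := one_mul s
  have hut : ∑ l ∈ range (2 * C.size), u l = nreads C x := by
    rw [hu, hLt]
    exact sum_fiberwise_of_maps_to (fun g _ => mem_range.2 (hpl g)) L
  obtain ⟨τ, hτ⟩ := group ρ (2 * C.size) s hs u hul (by rw [hut]; omega)
  refine ⟨z, τ, fun c => ?_⟩
  refine le_trans ?_ (hτ c)
  rw [hu]
  have h1 : rd C (fun g => grp τ (piece par node (zset z) g)) c x ⊆
      (univ.filter (fun g => grp τ (piece par node (zset z) g) = c)).biUnion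
        (fun g => (C.read x g).toFinset) := by
    intro i hi
    obtain ⟨g, h2, h3⟩ := mem_rd.1 hi
    rw [mem_biUnion]
    exact ⟨g, mem_filter.2 ⟨mem_univ _, h2⟩, List.mem_toFinset.2 h3⟩
  refine (card_le_card h1).trans (card_biUnion_le.trans ?_)
  have h2 : ∑ g ∈ univ.filter (fun g => grp τ (piece par node (zset z) g) = c),
      (C.read x g).toFinset.card ≤
      ∑ g ∈ univ.filter (fun g => grp τ (piece par node (zset z) g) = c), L g := by
    refine sum_le_sum (fun g _ => ?_)
    rw [hL]
    exact List.toFinset_card_le _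
  refine h2.trans (le_of_eq ?_)
  rw [← sum_fiberwise_of_maps_to (s := univ.filter (fun g =>
    grp τ (piece par node (zset z) g) = c)) (g := piece par node (zset z))
    (t := (range (2 * C.size)).filter (fun l => grp τ l = c)) (fun g hg => by
      obtain ⟨_, h4⟩ := mem_filter.1 hg
      exact mem_filter.2 ⟨mem_range.2 (hpl g), h4⟩)]
  refine sum_congr rfl (fun l hl => ?_)
  rw [filter_filter]
  refine sum_congr ?_ (fun _ _ => rfl)
  ext g
  simp only [mem_filter, mem_univ, true_and]
  constructor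
  · rintro ⟨_, h4⟩
    exact h4
  · intro h4
    exact ⟨by rw [h4]; exact (mem_filter.1 hl).2, h4⟩

theorem cover [Fintype α] (C : Circ (Fin n) α) {t w : ℕ} (ht : C.StrongLE t)
    (hα : Fintype.card α ≤ 2 ^ w) (ρ s W : ℕ) (hs : 0 < s) (hW : W < (ρ + 1) * s)
    (G : Finset (Pt n)) (hG : ∀ x ∈ G, C.Accepts x ∧ nreads C x ≤ W ∧
      ∀ g, (C.read x g).length ≤ s) :
    ∃ B : Blk n (ρ + 1) (2 * s), G.card ≤ ((C.size + 1) ^ ρ * (2 * C.size + 1) ^ ρ *
      2 ^ (w * (ρ * (t + 1)))) * B.K.card ∧ ∀ x ∈ B.K, C.Accepts x := by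
  classical
  obtain ⟨par, bag, hpar, hbag, hempty, hroot, hcov⟩ := ht
  choose node hnode1 hnode2 using hcov
  have hnode : ∀ g, node g < C.size := by
    intro g
    by_contra h
    push Not at h
    have := hnode1 g
    rw [hempty _ h] at this
    simp at this
  have hE : ∀ (z : Fin ρ → Fin (C.size + 1)) (τ : Fin ρ → Fin (2 * C.size + 1)) g a,
      C.src g a ∈ ebd bag z ∨ (fun g => grp τ (piece par node (zset z) g)) (C.src g a) =
        (fun g => grp τ (piece par node (zset z) g)) g := by
    intro z τ g a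
    by_cases h : C.src g a ∈ ebd bag z
    · exact Or.inl h
    · right
      show grp τ (piece par node (zset z) (C.src g a)) = grp τ (piece par node (zset z) g)
      rw [piece_eq h hpar hroot (hnode2 g a) (hnode1 _)]
  -- first step
  obtain ⟨⟨z, τ⟩, h1⟩ := pigeon (I := (Fin ρ → Fin (C.size + 1)) × (Fin ρ → Fin (2 * C.size + 1)))
    G (fun q => G.filter (fun x => ∀ c,
      (rd C (fun g => grp q.2 (piece par node (zset q.1) g)) c x).card ≤ 2 * s)) (by
      intro x hx
      obtain ⟨z, τ, h⟩ := cover_one C hpar hnode ρ s W hs hW x (hG x hx).2.1 (hG x hx).2.2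
      exact ⟨(z, τ), mem_filter.2 ⟨hx, h⟩⟩)
  simp only at h1
  have hne : Nonempty α := ⟨C.val (fun _ => true) C.out⟩
  obtain ⟨β, h2⟩ := pigeon (I := (ebd bag z) → α)
    (G.filter (fun x => ∀ c,
      (rd C (fun g => grp τ (piece par node (zset z) g)) c x).card ≤ 2 * s))
    (fun β => kset C (fun g => grp τ (piece par node (zset z) g)) (ebd bag z) β (2 * s)) (by
      intro x hx
      obtain ⟨h3, h4⟩ := mem_filter.1 hx
      exact ⟨fun v => C.val x v.1, mem_kset.2 ⟨(hG x h3).1, fun _ => rfl, h4⟩⟩)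
  refine ⟨toBlk C (fun g => grp τ (piece par node (zset z) g)) (ebd bag z) β (2 * s) (hE z τ), ?_,
    fun x hx => (mem_kset.1 hx).1⟩
  refine h1.trans ?_
  rw [Fintype.card_prod, Fintype.card_fun, Fintype.card_fun, Fintype.card_fin, Fintype.card_fin,
    Fintype.card_fin, mul_assoc ((C.size + 1) ^ ρ * (2 * C.size + 1) ^ ρ)]
  refine Nat.mul_le_mul_left _ (h2.trans (Nat.mul_le_mul_right _ ?_))
  rw [Fintype.card_fun, Fintype.card_coe]
  have h3 : (ebd bag z).card ≤ ρ * (t + 1) := by
    unfold ebd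
    refine card_biUnion_le.trans ?_
    calc ∑ j : Fin ρ, (bag (z j)).card ≤ ∑ _j : Fin ρ, (t + 1) := sum_le_sum (fun j _ => hbag _)
      _ = ρ * (t + 1) := by rw [sum_const, card_univ, Fintype.card_fin, smul_eq_mul]
  calc Fintype.card α ^ (ebd bag z).card ≤ (2 ^ w) ^ (ebd bag z).card := Nat.pow_le_pow_left hα _
    _ ≤ (2 ^ w) ^ (ρ * (t + 1)) := Nat.pow_le_pow_right (by positivity) h3
    _ = 2 ^ (w * (ρ * (t + 1))) := by rw [← pow_mul]

end Pool.Agent.V8H51.TW
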