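import Pool.Agent.V8H51.TW.Cover
import Pool.Agent.H554R2.Lin.CnfLin

/-!
# Sparse CNFs are hard for circuits of small treewidth which read linearly many bits
-/

set_option autoImplicit false

open Finset

namespace Pool.Agent.V8H51.TW

open Pool.Agent.H554R2.Sem Pool.Agent.H554R2.Coin Pool.Agent.H554R2.Cnf Pool.Agent.H554R2.Lin

theorem pow_sub_le {a g X : ℕ} (hg : g ≤ a) (h : 2 ^ a ≤ 2 ^ g * X) : 2 ^ (a - g) ≤ X := by
  have h3 : 2 ^ g * 2 ^ (a - g) ≤ 2 ^ g * X := by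
    rw [← pow_add, Nat.add_sub_cancel' hg]
    exact h
  exact Nat.le_of_mul_le_mul_left h3 (by positivity)

theorem log_le {n Q g e : ℕ} (hQ : 0 < Q) (h1 : n ≤ Q * e) (h2 : 100 * g ≤ e) :
    n / (2 * Q) ≤ e - g := by
  have h3 : n / (2 * Q) ≤ e / 2 := by
    rw [Nat.div_le_iff_le_mul_add_pred (by omega)]
    have h4 : e < 2 * (e / 2) + 2 := by omega
    have h5 : Q * e ≤ Q * (2 * (e / 2) + 1) := Nat.mul_le_mul_left _ (by omega)
    have h6 : Q * (2 * (e / 2) + 1) = 2 * Q * (e / 2) + Q := by ring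
    omega
  omega

theorem final_cnfT (k : ℕ) : ∃ D : ℕ, 0 < D ∧ ∀ n ≥ D,
    ∃ F : Finset (Finset (Fin n × Bool)), F.card ≤ D * n ∧ (∀ c ∈ F, c.card ≤ D) ∧
      ∀ (α : Type) [Fintype α] (C : Circ (Fin n) α) (t w : ℕ), C.StrongLE t →
        Fintype.card α ≤ 2 ^ w → C.size < 2 ^ (n / D) → w * (t + 1) ≤ n / D →
        (∀ x, C.Accepts x → Models F x) →
        2 ^ (n / D) * Nat.card {x // C.Accepts x ∧ nreads C x ≤ k * n ∧
            ∀ g, (C.read x g).length ≤ n / D} <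
          Nat.card {x : Pt n // Models F x} := by
  classical
  obtain ⟨Q, r, N, hQ, hr, hN, hmain⟩ := main_rect (2 * k + 2)
  obtain ⟨ρ, rfl⟩ : ∃ ρ, r = ρ + 1 := ⟨r - 1, by omega⟩
  obtain ⟨D1, hD1, hcnf⟩ := exists_cnf Q N hQ hN
  obtain ⟨E, hE⟩ : ∃ E : ℕ, E = 4 * N * (4 * ρ + 2) := ⟨_, rfl⟩
  obtain ⟨D, hD⟩ : ∃ D : ℕ, D = D1 + E + 4 * N + 2 * Q + ρ + 2 := ⟨_, rfl⟩
  have hD0 : 0 < D := by omega
  refine ⟨D, hD0, ?_⟩
  intro n hn
  obtain ⟨F, hF1, hF2, C', hC, hCc, hCR⟩ := hcnf n (by omega)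
  refine ⟨F, hF1.trans (Nat.mul_le_mul_right _ (by omega)), fun c hc => (hF2 c hc).trans (by omega),
    ?_⟩
  intro α _ C t w ht hα hsize hw hPf
  by_contra hneg
  push Not at hneg
  set G : Finset (Pt n) := univ.filter (fun x => C.Accepts x ∧ nreads C x ≤ k * n ∧
    ∀ g, (C.read x g).length ≤ n / D)
    with hG
  have hGc : Nat.card {x // C.Accepts x ∧ nreads C x ≤ k * n ∧
      ∀ g, (C.read x g).length ≤ n / D} = G.card := by
    rw [Nat.card_eq_fintype_card, Fintype.card_subtype]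
  have hZ : Nat.card {x : Pt n // Models F x} = C'.card := by
    rw [Nat.card_eq_fintype_card, Fintype.card_subtype]
    congr 1
    ext x
    simp only [Finset.mem_filter, Finset.mem_univ, true_and]
    exact (hC x).symm
  rw [hGc, hZ] at hneg
  -- blocks
  obtain ⟨s, hs⟩ : ∃ s : ℕ, s = k * n / (ρ + 1) + 1 := ⟨_, rfl⟩
  have hs1 : k * n < (ρ + 1) * s := by
    have := Nat.lt_mul_div_succ (k * n) hr
    rw [hs]; exact this
  have hs2 : (ρ + 1) * (2 * s) ≤ (2 * k + 2) * n := by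
    have h1 := Nat.mul_div_le (k * n) (ρ + 1)
    have h2 : ρ + 1 ≤ n := by omega
    rw [hs]; nlinarith
  have hs0 : 0 < s := by rw [hs]; exact Nat.succ_pos _
  obtain ⟨B, hB1, hB2⟩ := cover C ht hα ρ s (k * n) hs0 hs1 G (by
    intro x hx
    obtain ⟨_, h1, h2, h3⟩ := Finset.mem_filter.1 hx
    refine ⟨h1, h2, fun g => ?_⟩
    rcases Nat.eq_zero_or_pos k with hk | hk
    · have h4 : (C.read x g).length ≤ nreads C x :=
        Finset.single_le_sum (f := fun g => (C.read x g).length) (fun _ _ => Nat.zero_le _)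
          (Finset.mem_univ g)
      rw [hk, Nat.zero_mul] at h2
      omega
    · have h5 : n / D ≤ n / (ρ + 1) := Nat.div_le_div_left (by omega) (Nat.succ_pos _)
      have h6 : n / (ρ + 1) ≤ k * n / (ρ + 1) :=
        Nat.div_le_div_right (Nat.le_mul_of_pos_left n hk)
      rw [hs]
      exact (h3 g).trans ((h5.trans h6).trans (Nat.le_succ _)))
  -- the size
  have hnD : 1 ≤ n / D := (Nat.one_le_div_iff hD0).2 hn
  have hcard : (C.size + 1) ^ ρ * (2 * C.size + 1) ^ ρ * 2 ^ (w * (ρ * (t + 1))) ≤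
      2 ^ (4 * (n / D) * ρ) := by
    have h1 : C.size + 1 ≤ 2 ^ (n / D) := hsize
    have h2 : 2 * C.size + 1 ≤ 2 ^ (n / D + 1) := by
      rw [pow_succ]
      omega
    calc (C.size + 1) ^ ρ * (2 * C.size + 1) ^ ρ * 2 ^ (w * (ρ * (t + 1))) ≤
        (2 ^ (n / D)) ^ ρ * (2 ^ (n / D + 1)) ^ ρ * 2 ^ (n / D * ρ) := by
          refine Nat.mul_le_mul (Nat.mul_le_mul (Nat.pow_le_pow_left h1 _)
            (Nat.pow_le_pow_left h2 _)) (Nat.pow_le_pow_right (by norm_num) ?_)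
          calc w * (ρ * (t + 1)) = w * (t + 1) * ρ := by ring
            _ ≤ n / D * ρ := Nat.mul_le_mul_right _ hw
      _ = 2 ^ (n / D * ρ + (n / D + 1) * ρ + n / D * ρ) := by
          rw [← pow_mul, ← pow_mul, ← pow_add, ← pow_add]
      _ ≤ 2 ^ (4 * (n / D) * ρ) := by
          apply Nat.pow_le_pow_right (by norm_num)
          nlinarith
  have hexp : (8 * (n / (32 * N)) + 1) + (n / D) * (4 * ρ + 1) ≤ n / N := by
    rw [Nat.le_div_iff_mul_le hN]
    have h1 : 32 * N * (n / (32 * N)) ≤ n := Nat.mul_div_le n (32 * N)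
    have h2 : D * (n / D) ≤ n := Nat.mul_div_le n D
    have h3 : E * (n / D) ≤ D * (n / D) := Nat.mul_le_mul_right _ (by omega)
    have h4 : 4 * (((8 * (n / (32 * N)) + 1) + (n / D) * (4 * ρ + 1)) * N) ≤
        32 * N * (n / (32 * N)) + E * (n / D) := by
      rw [hE]
      have h5 : N * 1 ≤ N * (n / D) := Nat.mul_le_mul_left _ hnD
      nlinarith
    omega
  have hKbig : 2 ^ n ≤ 2 ^ (n / N) * B.K.card := by
    calc 2 ^ n ≤ 2 ^ (8 * (n / (32 * N)) + 1) * C'.card := hCc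
      _ ≤ 2 ^ (8 * (n / (32 * N)) + 1) * (2 ^ (n / D) * G.card) := Nat.mul_le_mul_left _ hneg
      _ ≤ 2 ^ (8 * (n / (32 * N)) + 1) *
          (2 ^ (n / D) * (2 ^ (4 * (n / D) * ρ) * B.K.card)) := by
          apply Nat.mul_le_mul_left
          apply Nat.mul_le_mul_left
          exact hB1.trans (Nat.mul_le_mul_right _ hcard)
      _ = 2 ^ ((8 * (n / (32 * N)) + 1) + (n / D) * (4 * ρ + 1)) * B.K.card := by
          rw [← mul_assoc, ← mul_assoc, ← pow_add, ← pow_add]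
          congr 2
          ring
      _ ≤ 2 ^ (n / N) * B.K.card :=
          Nat.mul_le_mul_right _ (Nat.pow_le_pow_right (by norm_num) hexp)
  obtain ⟨a, b, g, ha, hb, hga, hgb, ⟨R⟩⟩ := hmain n (by omega) (2 * s) hs2 B hKbig
  have hKC : B.K ⊆ C' := by
    intro x hx
    exact (hC x).2 (hPf x (hB2 x hx))
  rcases norect_rect C' B.K hKC hCR R with h | h
  · have h1 : 2 ^ (a - g) ≤ R.X.card := pow_sub_le (by clear * - hga; omega) R.nX
    have h4 : 2 ^ (n / (2 * Q)) ≤ 2 ^ (a - g) :=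
      Nat.pow_le_pow_right (by norm_num) (log_le hQ ha hga)
    exact absurd h (not_lt.2 (h4.trans h1))
  · have h1 : 2 ^ (b - g) ≤ R.Y.card := pow_sub_le (by clear * - hgb; omega) R.nY
    have h4 : 2 ^ (n / (2 * Q)) ≤ 2 ^ (b - g) :=
      Nat.pow_le_pow_right (by norm_num) (log_le hQ hb hgb)
    exact absurd h (not_lt.2 (h4.trans h1))

end Pool.Agent.V8H51.TW
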