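import Pool.Agent.V8H51.TW.Defs

/-!
# Tree decompositions in which a gate is together with the gates feeding it
-/

set_option autoImplicit false

open Finset

namespace Pool.Agent.V8H51.TW

/-- The set of nodes `A` is a nonempty subtree. -/
def Conn (par : ℕ → ℕ) (A : ℕ → Prop) : Prop := ∃! i, A i ∧ (i = 0 ∨ ¬ A (par i))

theorem Conn.min {par : ℕ → ℕ} (hpar : ∀ i, 0 < i → par i < i) {A : ℕ → Prop} {a : ℕ}
    (hu : ∀ i, A i → (i = 0 ∨ ¬ A (par i)) → i = a) : ∀ i, A i → a ≤ i := by
  intro i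
  induction i using Nat.strong_induction_on with
  | _ i ih =>
    intro hi
    by_cases h : i = 0 ∨ ¬ A (par i)
    · exact (hu i hi h).symm.le
    · push Not at h
      have h0 : 0 < i := Nat.pos_of_ne_zero h.1
      exact (ih _ (hpar i h0) h.2).trans (hpar i h0).le

theorem Conn.meet {par : ℕ → ℕ} (hpar : ∀ i, 0 < i → par i < i) {A B : ℕ → Prop} {a b : ℕ}
    (hu : ∀ i, A i → (i = 0 ∨ ¬ A (par i)) → i = a)
    (hv : ∀ i, B i → (i = 0 ∨ ¬ B (par i)) → i = b) : ∀ c, A c → B c → B a ∨ A b := by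
  intro c
  induction c using Nat.strong_induction_on with
  | _ c ih =>
    intro h1 h2
    by_cases h : c = 0 ∨ ¬ A (par c)
    · rw [← hu c h1 h]
      exact Or.inl h2
    · by_cases h' : c = 0 ∨ ¬ B (par c)
      · rw [← hv c h2 h']
        exact Or.inr h1
      · push Not at h h'
        exact ih _ (hpar c (Nat.pos_of_ne_zero h.1)) h.2 h'.2

theorem Conn.half {par : ℕ → ℕ} (hpar : ∀ i, 0 < i → par i < i) {A B : ℕ → Prop} {a b : ℕ}
    (hu : ∀ i, A i → (i = 0 ∨ ¬ A (par i)) → i = a) (hb : B b) (hb2 : b = 0 ∨ ¬ B (par b))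
    (hv : ∀ i, B i → (i = 0 ∨ ¬ B (par i)) → i = b) (hab : B a) :
    Conn par (fun i => A i ∨ B i) := by
  refine ⟨b, ⟨Or.inr hb, ?_⟩, ?_⟩
  · rcases Nat.eq_zero_or_pos b with h0 | h0
    · exact Or.inl h0
    · right
      rintro (h1 | h1)
      · have h2 := Conn.min hpar hu _ h1
        have h3 := Conn.min hpar hv _ hab
        have h4 := hpar b h0
        omega
      · rcases hb2 with h2 | h2
        · omega
        · exact h2 h1
  · rintro i ⟨h1, h2⟩
    have hB : B i := by
      rcases h1 with h1 | h1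
      · have h3 : i = a := hu i h1 (h2.imp id (fun h h4 => h (Or.inl h4)))
        rw [h3]
        exact hab
      · exact h1
    exact hv i hB (h2.imp id (fun h h4 => h (Or.inr h4)))

theorem Conn.union {par : ℕ → ℕ} (hpar : ∀ i, 0 < i → par i < i) {A B : ℕ → Prop}
    (hA : Conn par A) (hB : Conn par B) {c : ℕ} (h1 : A c) (h2 : B c) :
    Conn par (fun i => A i ∨ B i) := by
  obtain ⟨a, ⟨ha, ha2⟩, hu⟩ := hA
  obtain ⟨b, ⟨hb, hb2⟩, hv⟩ := hB
  have hu' : ∀ i, A i → (i = 0 ∨ ¬ A (par i)) → i = a := fun i h3 h4 => hu i ⟨h3, h4⟩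
  have hv' : ∀ i, B i → (i = 0 ∨ ¬ B (par i)) → i = b := fun i h3 h4 => hv i ⟨h3, h4⟩
  rcases Conn.meet hpar hu' hv' c h1 h2 with h | h
  · exact Conn.half hpar hu' hb hb2 hv' h
  · have h3 := Conn.half hpar hv' ha ha2 hu' h
    have h4 : (fun i => A i ∨ B i) = fun i => B i ∨ A i := by
      funext i
      exact propext or_comm
    rw [h4]
    exact h3

theorem Conn.many {par : ℕ → ℕ} (hpar : ∀ i, 0 < i → par i < i) {A : ℕ → Prop}
    (hA : Conn par A) {J : Type} [DecidableEq J] (B : J → ℕ → Prop) (s : Finset J)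
    (hB : ∀ j ∈ s, Conn par (B j)) (hm : ∀ j ∈ s, ∃ c, A c ∧ B j c) :
    Conn par (fun i => A i ∨ ∃ j ∈ s, B j i) := by
  induction s using Finset.induction_on with
  | empty =>
    have h4 : (fun i => A i ∨ ∃ j ∈ (∅ : Finset J), B j i) = A := by
      funext i
      simp
    rw [h4]
    exact hA
  | insert j s _ ih =>
    obtain ⟨c, h1, h2⟩ := hm j (mem_insert_self _ _)
    have h3 := ih (fun j hj => hB j (mem_insert_of_mem hj)) (fun j hj => hm j (mem_insert_of_mem hj))
    have h5 := Conn.union hpar h3 (hB j (mem_insert_self _ _)) (c := c) (Or.inl h1) h2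
    have h4 : (fun i => A i ∨ ∃ k ∈ insert j s, B k i) =
        fun i => (A i ∨ ∃ k ∈ s, B k i) ∨ B j i := by
      funext i
      apply propext
      constructor
      · rintro (h | ⟨k, hk, hk2⟩)
        · exact Or.inl (Or.inl h)
        · rcases mem_insert.1 hk with h | h
          · rw [h] at hk2
            exact Or.inr hk2
          · exact Or.inl (Or.inr ⟨k, h, hk2⟩)
      · rintro ((h | ⟨k, hk, hk2⟩) | h)
        · exact Or.inl h
        · exact Or.inr ⟨k, mem_insert_of_mem hk, hk2⟩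
        · exact Or.inr ⟨j, mem_insert_self _ _, h⟩
    rw [h4]
    exact h5

variable {V α : Type}

theorem strong_of_treewidth (C : Circ V α) {t d : ℕ} (hd : ∀ g, C.arity g ≤ d)
    (ht : C.TreewidthLE t) : C.StrongLE ((d + 1) * (t + 1) - 1) := by
  classical
  obtain ⟨par, bag, hpar, hbag, hempty, hroot, hcov⟩ := ht
  have hone : 1 ≤ (d + 1) * (t + 1) := Nat.mul_pos (Nat.succ_pos _) (Nat.succ_pos _)
  refine ⟨par, fun i => bag i ∪ (bag i).biUnion (fun g => univ.image (C.src g)), hpar, ?_, ?_, ?_,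
    ?_⟩
  · intro i
    rw [Nat.sub_add_cancel hone]
    refine (card_union_le _ _).trans ?_
    have h1 : ((bag i).biUnion (fun g => univ.image (C.src g))).card ≤ (bag i).card * d := by
      refine card_biUnion_le.trans ?_
      calc ∑ g ∈ bag i, (univ.image (C.src g)).card ≤ ∑ _g ∈ bag i, d := by
            refine sum_le_sum (fun g _ => card_image_le.trans ?_)
            rw [card_univ, Fintype.card_fin]
            exact hd g
        _ = (bag i).card * d := by rw [sum_const, smul_eq_mul]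
    have h2 := hbag i
    nlinarith
  · intro i hi
    show bag i ∪ (bag i).biUnion (fun g => univ.image (C.src g)) = ∅
    rw [hempty i hi]
    simp
  · intro v
    have h1 : Conn par (fun i => v ∈ bag i ∨
        ∃ g ∈ univ.filter (fun g => ∃ a, C.src g a = v), g ∈ bag i) := by
      refine Conn.many hpar (hroot v) (fun g i => g ∈ bag i) _ (fun g _ => hroot g) (fun g hg => ?_)
      obtain ⟨_, a, ha⟩ := mem_filter.1 hg
      obtain ⟨i, h2, h3⟩ := hcov g a
      rw [ha] at h3
      exact ⟨i, h3, h2⟩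
    have h2 : ∀ i, (v ∈ bag i ∪ (bag i).biUnion (fun g => univ.image (C.src g))) ↔
        (v ∈ bag i ∨ ∃ g ∈ univ.filter (fun g => ∃ a, C.src g a = v), g ∈ bag i) := by
      intro i
      rw [mem_union, mem_biUnion]
      constructor
      · rintro (h | ⟨g, h3, h4⟩)
        · exact Or.inl h
        · obtain ⟨a, _, ha⟩ := mem_image.1 h4
          exact Or.inr ⟨g, mem_filter.2 ⟨mem_univ _, a, ha⟩, h3⟩
      · rintro (h | ⟨g, h3, h4⟩)
        · exact Or.inl h
        · obtain ⟨_, a, ha⟩ := mem_filter.1 h3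
          exact Or.inr ⟨g, h4, mem_image.2 ⟨a, mem_univ _, ha⟩⟩
    simp only [h2]
    exact h1
  · intro g
    by_cases h : ∃ a : Fin (C.arity g), True
    · obtain ⟨a, _⟩ := h
      obtain ⟨i, h1, _⟩ := hcov g a
      refine ⟨i, mem_union_left _ h1, fun a' => mem_union_right _ ?_⟩
      rw [mem_biUnion]
      exact ⟨g, h1, mem_image.2 ⟨a', mem_univ _, rfl⟩⟩
    · obtain ⟨i, ⟨h1, _⟩, _⟩ := hroot g
      exact ⟨i, mem_union_left _ h1, fun a' => absurd ⟨a', trivial⟩ h⟩

end Pool.Agent.V8H51.TW
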