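import Pool.Agent.V8H51.TW.CnfT
import Pool.Agent.V8H51.TW.Moral
import Pool.Agent.V8H51.RS.SatR

/-!
# 3-SAT is hard for circuits of small treewidth with random access to the input
-/

set_option autoImplicit false

open Finset

namespace Pool.Agent.V8H51.TW

open Pool.Agent.H554R2.Sem Pool.Agent.H554R2.Coin Pool.Agent.H554R2.Cnf Pool.Agent.H538R4.SP
open Pool.Agent.V8H51.RS (idx_none idx_some' averageR)

section

variable {V α : Type} {n : ℕ}

/-- The tree in which the input bits outside the range of `p` have the values given by `b`. -/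
noncomputable def fixD (p : Fin n → V) (b : V → Bool) : DTree V α → DTree (Fin n) α
  | .leaf u => .leaf u
  | .ask v f => (idx p v).elim (fixD p b (f (b v))) (fun i => .ask i (fun β => fixD p b (f β)))

theorem fixD_eval {p : Fin n → V} (hp : Function.Injective p) (b : V → Bool) (x : Pt n)
    (T : DTree V α) : (fixD p b T).eval x = T.eval (plug p b x) ∧
      (fixD p b T).reads x = (T.reads (plug p b x)).filterMap (idx p) := by
  induction T with
  | leaf u => exact ⟨rfl, rfl⟩
  | ask v f ih =>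
    cases h4 : idx p v with
    | none =>
      have h5 : plug p b x v = b v := plug_other p b x v (idx_none h4)
      have h6 : fixD p b (DTree.ask v f) = fixD p b (f (b v)) := by
        rw [fixD, h4]
        rfl
      rw [h6, DTree.eval, DTree.reads, h5, List.filterMap_cons, h4]
      exact ih (b v)
    | some i =>
      have h5 : plug p b x v = x i := by
        rw [← idx_some' h4, plug_apply p hp b x i]
      have h6 : fixD p b (DTree.ask v f) = DTree.ask i (fun β => fixD p b (f β)) := by
        rw [fixD, h4]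
        rfl
      rw [h6, DTree.eval, DTree.reads, DTree.eval, DTree.reads, h5, List.filterMap_cons, h4]
      exact ⟨(ih (x i)).1, by rw [(ih (x i)).2]⟩

/-- The circuit in which the input bits outside the range of `p` have the values given by `b`. -/
noncomputable def fixT (p : Fin n → V) (b : V → Bool) (C : Circ V α) : Circ (Fin n) α where
  size := C.size
  arity := C.arity
  src := C.src
  acyclic := C.acyclic
  op := fun g u => fixD p b (C.op g u)
  out := C.out
  acc := C.acc

theorem fixT_val {p : Fin n → V} (hp : Function.Injective p) (b : V → Bool) (C : Circ V α)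
    (x : Pt n) : ∀ g : Fin C.size, (fixT p b C).val x g = C.val (plug p b x) g := by
  intro g
  induction g using WellFoundedLT.induction with
  | ind g ih =>
    rw [(fixT p b C).val_eq x g, C.val_eq (plug p b x) g]
    have h1 : (fun a => (fixT p b C).val x ((fixT p b C).src g a)) =
        fun a => C.val (plug p b x) (C.src g a) := by
      funext a
      exact ih _ (C.acyclic g a)
    rw [h1]
    exact (fixD_eval hp b x (C.op g (fun a => C.val (plug p b x) (C.src g a)))).1

theorem fixT_read {p : Fin n → V} (hp : Function.Injective p) (b : V → Bool) (C : Circ V α)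
    (x : Pt n) (g : Fin C.size) :
    (fixT p b C).read x g = (C.read (plug p b x) g).filterMap (idx p) := by
  unfold Circ.read
  have h1 : (fun a => (fixT p b C).val x ((fixT p b C).src g a)) =
      fun a => C.val (plug p b x) (C.src g a) := by
    funext a
    exact fixT_val hp b C x _
  rw [h1]
  exact (fixD_eval hp b x (C.op g (fun a => C.val (plug p b x) (C.src g a)))).2

theorem fixT_length [BEq V] [LawfulBEq V] {p : Fin n → V} (hp : Function.Injective p)
    (b : V → Bool) (C : Circ V α) (x : Pt n) (g : Fin C.size) :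
    ((fixT p b C).read x g).length = ∑ i, (C.read (plug p b x) g).count (p i) := by
  rw [fixT_read hp b C x g]
  exact idx_length p hp _

end

theorem genT (k : ℕ) : ∃ D : ℕ, 0 < D ∧ ∀ (V : Type) [BEq V] [LawfulBEq V]
    (Sol : (V → Bool) → Prop) (n : ℕ) (p : Fin n → V), Function.Injective p →
    (∀ F : Finset (Finset (Fin n × Bool)), (∀ c ∈ F, c.card ≤ D) → F.card ≤ D * n →
      ∃ b : V → Bool, ∀ x : Pt n, Sol (plug p b x) ↔ Models F x) →
    D ≤ n → ∃ b : V → Bool, ∀ (α : Type) [Fintype α] (C : Circ V α) (t w : ℕ),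
      C.StrongLE t → Fintype.card α ≤ 2 ^ w → C.size < 2 ^ (n / D) → w * (t + 1) ≤ n / D →
      (∀ x : Pt n, C.Accepts (plug p b x) → Sol (plug p b x)) →
      2 ^ (n / D) * Nat.card {x : Pt n // C.Accepts (plug p b x) ∧
        ∑ g, ∑ i, (C.read (plug p b x) g).count (p i) ≤ k * n ∧
        ∀ g, ∑ i, (C.read (plug p b x) g).count (p i) ≤ n / D} <
        Nat.card {x : Pt n // Sol (plug p b x)} := by
  classical
  obtain ⟨D, hD, h⟩ := final_cnfT k
  refine ⟨D, hD, fun V _ _ Sol n p hp hred hn => ?_⟩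
  obtain ⟨F, hF1, hF2, hF3⟩ := h n hn
  obtain ⟨b, hx⟩ := hred F hF2 hF1
  refine ⟨b, fun α _ C t w ht hα hs hw hP => ?_⟩
  have hacc : ∀ x, (fixT p b C).Accepts x ↔ C.Accepts (plug p b x) := by
    intro x
    unfold Circ.Accepts
    show C.acc ((fixT p b C).val x C.out) ↔ _
    rw [fixT_val hp b C x C.out]
  have h1 := hF3 α (fixT p b C) t w ht hα hs hw (by
    intro x hx'
    rw [← hx x]
    exact hP x ((hacc x).1 hx'))
  have e3 : Nat.card {x : Pt n // Models F x} = Nat.card {x : Pt n // Sol (plug p b x)} :=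
    Nat.card_congr (Equiv.subtypeEquivRight (fun x => (hx x).symm))
  have e5 : ∀ x, nreads (fixT p b C) x = ∑ g, ∑ i, (C.read (plug p b x) g).count (p i) := by
    intro x
    unfold nreads
    exact Finset.sum_congr rfl (fun g _ => fixT_length hp b C x g)
  have e4 : Nat.card {x : Pt n // (fixT p b C).Accepts x ∧ nreads (fixT p b C) x ≤ k * n ∧
        ∀ g, ((fixT p b C).read x g).length ≤ n / D} =
      Nat.card {x : Pt n // C.Accepts (plug p b x) ∧
        ∑ g, ∑ i, (C.read (plug p b x) g).count (p i) ≤ k * n ∧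
        ∀ g, ∑ i, (C.read (plug p b x) g).count (p i) ≤ n / D} :=
    Nat.card_congr (Equiv.subtypeEquivRight (fun x => by
      rw [hacc x, e5 x]
      refine and_congr_right (fun _ => and_congr_right (fun _ => forall_congr' (fun g => ?_)))
      rw [fixT_length hp b C x g]))
  rw [← e3, ← e4]
  exact h1

theorem finalT (k : ℕ) : ∃ D : ℕ, 0 < D ∧ ∀ (n M ℓ : ℕ) (a : Fin n ↪ Fin M), D * n ≤ M →
    D * n ≤ 2 ^ ℓ → ∃ b : Idx M ℓ → Bool, ∀ (t w d : ℕ) (R : Type) [Fintype R] [Nonempty R]
      (α : Type) [Fintype α] (U : R → Circ (Idx M ℓ) α),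
      Fintype.card α ≤ 2 ^ w → (∀ r, (U r).TreewidthLE t) → (∀ r g, (U r).arity g ≤ d) →
      (∀ r (x : Pt n), (U r).Accepts (plug (fun i => sgn ℓ (a i)) b x) →
        Sat3 (plug (fun i => sgn ℓ (a i)) b x)) →
      Nat.card R * Nat.card {x : Pt n // Sat3 (plug (fun i => sgn ℓ (a i)) b x)} ≤ 2 ^ (n / D) *
        Nat.card {u : R × Pt n // (U u.1).Accepts (plug (fun i => sgn ℓ (a i)) b u.2) ∧
          ∑ g, ∑ i, ((U u.1).read (plug (fun i => sgn ℓ (a i)) b u.2) g).count
            (sgn ℓ (a i)) ≤ k * n ∧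
          ∀ g, ∑ i, ((U u.1).read (plug (fun i => sgn ℓ (a i)) b u.2) g).count
            (sgn ℓ (a i)) ≤ n / D} →
      n / D ≤ w * ((d + 1) * (t + 1)) ∨ ∃ r, 2 ^ (n / D) ≤ (U r).size := by
  obtain ⟨D1, hD1, h1⟩ := genT k
  refine ⟨(2 * D1 + 2) * (2 * D1 + 2), by positivity, fun n M ℓ a hM hℓ => ?_⟩
  set D := (2 * D1 + 2) * (2 * D1 + 2) with hD
  have hD1D : 2 * D1 ≤ D := by rw [hD]; nlinarith
  rcases Nat.eq_zero_or_pos (n / D) with h0 | hpos
  · rw [h0]
    exact ⟨fun _ => true, fun t w d R _ _ α _ U _ _ _ _ _ => Or.inl (Nat.zero_le _)⟩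
  have hn0 : 0 < n := by
    rcases Nat.eq_zero_or_pos n with h | h
    · rw [h] at hpos
      simp at hpos
    · exact h
  have hp : Function.Injective (fun i => (sgn ℓ (a i) : Idx M ℓ)) :=
    fun i j h => a.injective (sgn_inj h)
  have hq : n / D + 1 ≤ n / D1 := by
    have h2 : n / D ≤ n / (2 * D1) := Nat.div_le_div_left hD1D (by omega)
    have h3 : 2 * (n / (2 * D1)) ≤ n / D1 := by
      rw [Nat.le_div_iff_mul_le hD1]
      calc 2 * (n / (2 * D1)) * D1 = 2 * D1 * (n / (2 * D1)) := by ring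
        _ ≤ n := Nat.mul_div_le n _
    omega
  have hn1 : D1 ≤ n := by
    by_contra h
    push Not at h
    rw [Nat.div_eq_of_lt h] at hq
    omega
  obtain ⟨b, hb⟩ := h1 (Idx M ℓ) Sat3 n _ hp (fun F hF hFc => by
      have h3 : n + 1 + (D1 + 1) * F.card ≤ D * n := by
        have h4 : (D1 + 1) * F.card ≤ (D1 + 1) * (D1 * n) :=
          Nat.mul_le_mul_left _ hFc
        have h5 : D * n = (D1 + 1) * (D1 * n) + (3 * D1 ^ 2 + 7 * D1 + 4) * n := by
          rw [hD]; ring
        have h6 : n + 1 ≤ (3 * D1 ^ 2 + 7 * D1 + 4) * n := by nlinarith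
        omega
      exact reduction_set F hF (h3.trans hM) (h3.trans hℓ) a a.injective) hn1
  refine ⟨b, fun t w d R _ _ α _ U hα ht hd hU hl => ?_⟩
  obtain ⟨r, hr⟩ := averageR
    (fun r (x : Pt n) => (U r).Accepts (plug (fun i => sgn ℓ (a i)) b x) ∧
          ∑ g, ∑ i, ((U r).read (plug (fun i => sgn ℓ (a i)) b x) g).count
            (sgn ℓ (a i)) ≤ k * n ∧
          ∀ g, ∑ i, ((U r).read (plug (fun i => sgn ℓ (a i)) b x) g).count
            (sgn ℓ (a i)) ≤ n / D) (n / D) _ hl
  by_contra hc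
  push Not at hc
  have h7 : 2 ^ (n / D) ≤ 2 ^ (n / D1) := Nat.pow_le_pow_right (by norm_num) (by omega)
  have hone : 1 ≤ (d + 1) * (t + 1) := Nat.mul_pos (Nat.succ_pos _) (Nat.succ_pos _)
  have h5 := hb α (U r) _ w (strong_of_treewidth (U r) (hd r) (ht r)) hα
    (lt_of_lt_of_le (hc.2 r) h7) (by rw [Nat.sub_add_cancel hone]; omega) (hU r)
  have h8 : Nat.card {x : Pt n // (U r).Accepts (plug (fun i => sgn ℓ (a i)) b x) ∧
          ∑ g, ∑ i, ((U r).read (plug (fun i => sgn ℓ (a i)) b x) g).count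
            (sgn ℓ (a i)) ≤ k * n ∧
          ∀ g, ∑ i, ((U r).read (plug (fun i => sgn ℓ (a i)) b x) g).count
            (sgn ℓ (a i)) ≤ n / D} ≤
      Nat.card {x : Pt n // (U r).Accepts (plug (fun i => sgn ℓ (a i)) b x) ∧
          ∑ g, ∑ i, ((U r).read (plug (fun i => sgn ℓ (a i)) b x) g).count
            (sgn ℓ (a i)) ≤ k * n ∧
          ∀ g, ∑ i, ((U r).read (plug (fun i => sgn ℓ (a i)) b x) g).count
            (sgn ℓ (a i)) ≤ n / D1} := by
    refine Nat.card_le_card_of_injective (fun y => ⟨y.1, y.2.1, y.2.2.1, fun g => ?_⟩) ?_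
    · exact (y.2.2.2 g).trans (by omega)
    · intro y z hyz
      exact Subtype.ext (by simpa using hyz)
  exact absurd (hr.trans (Nat.mul_le_mul h7 h8)) (not_le.2 h5)

end Pool.Agent.V8H51.TW
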