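import Mathlib

/-!
# Cutting a weighted tree, grouping an interval
-/

set_option autoImplicit false

open Finset

namespace Pool.Agent.V8H51.TW

/-- The highest node that can be reached from `i` without meeting `Z` on the way up. -/
def comp (par : ℕ → ℕ) (Z : Finset ℕ) (i : ℕ) : ℕ :=
  if h : 0 < i ∧ par i < i ∧ par i ∉ Z then comp par Z (par i) else i
termination_by i
decreasing_by exact h.2.1

theorem comp_step {par : ℕ → ℕ} {Z : Finset ℕ} {i : ℕ} (h0 : 0 < i) (h1 : par i < i)
    (h2 : par i ∉ Z) : comp par Z i = comp par Z (par i) := by
  rw [comp, dif_pos ⟨h0, h1, h2⟩]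

theorem comp_stop {par : ℕ → ℕ} {Z : Finset ℕ} {i : ℕ} (h2 : par i ∈ Z) :
    comp par Z i = i := by
  rw [comp, dif_neg (fun h => h.2.2 h2)]

theorem comp_zero {par : ℕ → ℕ} {Z : Finset ℕ} : comp par Z 0 = 0 := by
  rw [comp, dif_neg (fun h => absurd h.1 (lt_irrefl 0))]

theorem comp_le (par : ℕ → ℕ) (Z : Finset ℕ) : ∀ i, comp par Z i ≤ i := by
  intro i
  induction i using Nat.strong_induction_on with
  | _ i ih =>
    rw [comp]
    split_ifs with h
    · exact (ih _ h.2.1).trans h.2.1.le
    · exact le_rfl

theorem comp_congr {par : ℕ → ℕ} {Z Z' : Finset ℕ} : ∀ i, (∀ j < i, j ∈ Z ↔ j ∈ Z') →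
    comp par Z i = comp par Z' i := by
  intro i
  induction i using Nat.strong_induction_on with
  | _ i ih =>
    intro h
    by_cases h1 : 0 < i ∧ par i < i ∧ par i ∉ Z
    · have h2 : 0 < i ∧ par i < i ∧ par i ∉ Z' := ⟨h1.1, h1.2.1, fun h3 => h1.2.2 ((h _ h1.2.1).2 h3)⟩
      rw [comp, dif_pos h1, ih _ h1.2.1 (fun j hj => h j (hj.trans h1.2.1)), eq_comm, comp,
        dif_pos h2]
    · have h2 : ¬ (0 < i ∧ par i < i ∧ par i ∉ Z') :=
        fun h3 => h1 ⟨h3.1, h3.2.1, fun h4 => h3.2.2 ((h _ h3.2.1).1 h4)⟩
      rw [comp, dif_neg h1, comp, dif_neg h2]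

theorem cut {par : ℕ → ℕ} (hpar : ∀ i, 0 < i → par i < i) (s : ℕ) : ∀ (m : ℕ) (w : ℕ → ℕ),
    ∃ Z : Finset ℕ, Z ⊆ range m ∧ Z.card * (s + 1) ≤ ∑ i ∈ range m, w i ∧
      ∀ p, ∑ i ∈ (range m).filter (fun i => i ∉ Z ∧ comp par Z i = p), w i ≤ s := by
  intro m
  induction m with
  | zero =>
    intro w
    exact ⟨∅, by simp, by simp, by simp⟩
  | succ m ih =>
    intro w
    by_cases hw : s < w m
    · obtain ⟨Z, h1, h2, h3⟩ := ih w
      have hm : m ∉ Z := fun h => absurd (mem_range.1 (h1 h)) (lt_irrefl m)
      refine ⟨insert m Z, ?_, ?_, ?_⟩
      · intro i hi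
        rcases mem_insert.1 hi with h | h
        · rw [h]; exact mem_range.2 (Nat.lt_succ_self m)
        · exact mem_range.2 ((mem_range.1 (h1 h)).trans (Nat.lt_succ_self m))
      · rw [card_insert_of_notMem hm, sum_range_succ]
        nlinarith
      · intro p
        have h4 : (range (m + 1)).filter (fun i => i ∉ insert m Z ∧ comp par (insert m Z) i = p) =
            (range m).filter (fun i => i ∉ Z ∧ comp par Z i = p) := by
          ext i
          simp only [mem_filter, mem_range, mem_insert, not_or]
          constructor
          · rintro ⟨h5, ⟨h6, h7⟩, h8⟩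
            have h9 : i < m := by omega
            refine ⟨h9, h7, ?_⟩
            rw [← h8]
            refine comp_congr i (fun j hj => ?_)
            rw [mem_insert]
            constructor
            · exact fun h => Or.inr h
            · rintro (h | h)
              · omega
              · exact h
          · rintro ⟨h5, h6, h7⟩
            refine ⟨by omega, ⟨by omega, h6⟩, ?_⟩
            rw [← h7]
            refine comp_congr i (fun j hj => ?_)
            rw [mem_insert]
            constructor
            · rintro (h | h)
              · omega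
              · exact h
            · exact fun h => Or.inr h
        rw [h4]
        exact h3 p
    · push Not at hw
      rcases Nat.eq_zero_or_pos m with hm0 | hm0
      · subst hm0
        refine ⟨∅, by simp, by simp, fun p => ?_⟩
        refine le_trans (Finset.sum_le_sum_of_subset (filter_subset _ _)) ?_
        simpa using hw
      · have hp := hpar m hm0
        obtain ⟨w', hw'⟩ : ∃ w' : ℕ → ℕ, w' = fun i => w i + if i = par m then w m else 0 :=
          ⟨_, rfl⟩
        obtain ⟨Z, h1, h2, h3⟩ := ih w'
        have hm : m ∉ Z := fun h => absurd (mem_range.1 (h1 h)) (lt_irrefl m)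
        refine ⟨Z, ?_, ?_, ?_⟩
        · exact h1.trans (range_subset_range.2 (Nat.le_succ m))
        · refine h2.trans (le_of_eq ?_)
          rw [hw', sum_add_distrib, sum_ite_eq', if_pos (mem_range.2 hp), sum_range_succ]
        · intro p
          rw [range_add_one, filter_insert]
          by_cases hZ : par m ∈ Z
          · rw [comp_stop hZ]
            by_cases hpm : m = p
            · rw [if_pos ⟨hm, hpm⟩]
              have h4 : (range m).filter (fun i => i ∉ Z ∧ comp par Z i = p) = ∅ := by
                apply filter_false_of_mem
                rintro i hi ⟨_, h5⟩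
                have := comp_le par Z i
                rw [h5] at this
                have := mem_range.1 hi
                omega
              rw [h4]
              simpa using hw
            · rw [if_neg (fun h => hpm h.2)]
              refine le_trans (sum_le_sum (fun i _ => ?_)) (h3 p)
              rw [hw']
              exact Nat.le_add_right _ _
          · rw [comp_step hm0 hp hZ]
            have h5 : ∑ i ∈ (range m).filter (fun i => i ∉ Z ∧ comp par Z i = p), w' i =
                ∑ i ∈ (range m).filter (fun i => i ∉ Z ∧ comp par Z i = p), w i +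
                  if comp par Z (par m) = p then w m else 0 := by
              rw [hw', sum_add_distrib, sum_ite_eq']
              congr 1
              simp only [mem_filter, mem_range]
              by_cases hc : comp par Z (par m) = p
              · rw [if_pos ⟨hp, hZ, hc⟩, if_pos hc]
              · rw [if_neg (fun h => hc h.2.2), if_neg hc]
            have h6 := h3 p
            rw [h5] at h6
            by_cases hc : comp par Z (par m) = p
            · rw [if_pos ⟨hm, hc⟩, sum_insert (by simp)]
              rw [if_pos hc] at h6
              omega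
            · rw [if_neg (fun h => hc h.2)]
              rw [if_neg hc] at h6
              omega

end Pool.Agent.V8H51.TW
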