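import Mathlib

/-!
# Circuits whose gates are decision trees: definitions
-/

set_option autoImplicit false

namespace Pool.Agent.V8H51.TW

/-- A decision tree over the set `V` of input bits, with elements of `α` at the leaves. -/
inductive DTree (V α : Type) where
  | leaf (u : α)
  | ask (v : V) (f : Bool → DTree V α)

namespace DTree

variable {V α : Type}

/-- The result on the input `x`. -/
def eval (x : V → Bool) : DTree V α → α
  | leaf u => u
  | ask v f => (f (x v)).eval x

/-- The input bits which are read, in this order. -/
def reads (x : V → Bool) : DTree V α → List V
  | leaf _ => []
  | ask v f => v :: (f (x v)).reads x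

end DTree

/-- A circuit over the set `V` of input bits, whose wires carry elements of `α` (words). The gate
`g` receives the words computed by the gates `src g a`, which are earlier gates; depending on them
it reads some input bits, one after the other, the choice depending also on the bits already read,
and then it computes a word: this is given by a decision tree `op g u`, where `u` are the words
received. The input is accepted if the value of the gate `out` is in `acc`. -/
structure Circ (V α : Type) where
  /-- the number of gates -/
  size : ℕ
  /-- the fan-in of a gate -/
  arity : Fin size → ℕ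
  /-- the sources of the wires which enter a gate -/
  src : (g : Fin size) → Fin (arity g) → Fin size
  acyclic : ∀ g a, src g a < g
  /-- the decision tree of a gate -/
  op : (g : Fin size) → (Fin (arity g) → α) → DTree V α
  /-- the output gate -/
  out : Fin size
  /-- the accepting words -/
  acc : α → Prop

namespace Circ

variable {V α : Type}

/-- The value of the gate `g` on the input `x`. -/
def val (C : Circ V α) (x : V → Bool) (g : Fin C.size) : α :=
  (C.op g (fun a => C.val x (C.src g a))).eval x
termination_by g
decreasing_by exact C.acyclic g _

/-- The input bits which are read by the gate `g` on the input `x`. -/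
def read (C : Circ V α) (x : V → Bool) (g : Fin C.size) : List V :=
  (C.op g (fun a => C.val x (C.src g a))).reads x

theorem val_eq (C : Circ V α) (x : V → Bool) (g : Fin C.size) :
    C.val x g = (C.op g (fun a => C.val x (C.src g a))).eval x := by
  rw [val]

/-- The circuit accepts the input `x`. -/
def Accepts (C : Circ V α) (x : V → Bool) : Prop := C.acc (C.val x C.out)

/-- The graph of the gates (a gate is joined to the gates from which it receives words) has a tree
decomposition with at most `C.size` bags of at most `t + 1` gates: the nodes of the tree are the
numbers less than `C.size`, the root is `0` and the parent of `i` is `par i`, where `par i < i`; the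
nodes whose bags contain a given gate form a nonempty subtree, that is, exactly one of them is the
root or has a parent whose bag does not contain the gate; any two joined gates are in a common bag.
(A graph with `N` vertices which has a tree decomposition of width `t` has one with at most `N`
bags.) -/
def TreewidthLE (C : Circ V α) (t : ℕ) : Prop :=
  ∃ (par : ℕ → ℕ) (bag : ℕ → Finset (Fin C.size)),
    (∀ i, 0 < i → par i < i) ∧ (∀ i, (bag i).card ≤ t + 1) ∧ (∀ i, C.size ≤ i → bag i = ∅) ∧
    (∀ v, ∃! i, v ∈ bag i ∧ (i = 0 ∨ v ∉ bag (par i))) ∧
    (∀ g a, ∃ i, g ∈ bag i ∧ C.src g a ∈ bag i)

/-- The same, but each gate is in a bag together with all gates from which it receives words. -/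
def StrongLE (C : Circ V α) (t : ℕ) : Prop :=
  ∃ (par : ℕ → ℕ) (bag : ℕ → Finset (Fin C.size)),
    (∀ i, 0 < i → par i < i) ∧ (∀ i, (bag i).card ≤ t + 1) ∧ (∀ i, C.size ≤ i → bag i = ∅) ∧
    (∀ v, ∃! i, v ∈ bag i ∧ (i = 0 ∨ v ∉ bag (par i))) ∧
    (∀ g, ∃ i, g ∈ bag i ∧ ∀ a, C.src g a ∈ bag i)

end Circ

end Pool.Agent.V8H51.TW
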